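import Mathlib
import Pool.Agent.H806.PD.TB

/-!
# Prime tuples with polynomial conditions modulo 1, for almost all vectors of shifts

Let `P 1, ..., P m` be real polynomials of degree at least two whose leading coefficients are of finite type (not
approximable by fractions `a / q` to arbitrarily high powers of `1 / q`, e.g. algebraic irrational numbers). There is
`η > 0` such that:

1. for all `A`, `W` and `ε > 0`, all but at most `N^m / (log N)^A` of the admissible vectors `(a 1, ..., a m)` of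
   integers `0 ≤ a i ≤ N` have the following properties in every window `y₁ < n ≤ y₂ ≤ N` of length at least
   `N / (log N)^W`: (a) for ALL real `u 1, ..., u m` the window contains an `n` such that all `n + a i` are prime
   and `‖P i (n + a i) - u i‖ ≤ N^(-η)` for all `i`; (b) the number of the `n` in the window with all `n + a i`
   prime and with `P i (n + a i)` modulo 1 in prescribed arcs of lengths `b i ≥ N^(-η)` is `b 1 ⋯ b m` times the
   number `𝔖(a) (y₂ - y₁) / (log N)^m` predicted by Hardy and Littlewood, up to a relative error `ε`;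
2. for all but at most `N^(m - η)` of ALL vectors `a` of integers `0 ≤ a i ≤ N`, the vectors
   `(P 1 (n + a 1), ..., P m (n + a m))` modulo 1, over the `n` in a window with `n ≡ c (mod q)` and all `n + a i`
   prime, are equidistributed with an error at most `N^(1 - η)`, for all windows, all `q ≤ N^η`, all `c` and all
   boxes, however many such `n` there are.

Proof (`H806/PD`): Vaughan's identity and Weyl's method give a power saving for `∑ e(k P(p) + β p)`, `p ≤ y` prime,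
uniformly in `β` and in `0 < |k| ≤ N^η`. Parseval's identity in one of the shifts, the others being fixed, gives a
power saving for the mean square over the shifts of the exponential sums over the prime tuples; the union over the
windows, the classes and the frequencies, and products of Fourier majorants of arcs give (2). The asymptotic formula
for the number of prime tuples for almost all vectors of shifts (`TH935/TF`) then gives (1).
-/

set_option autoImplicit false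

namespace Pool.Agent.Results.MP_f686a1_nt.PolynomialBohrTuples

open Finset Polynomial Filter Topology

/-- `α` is of finite type: `|q α - a| ≥ κ q^(-τ)` for some `κ > 0`, `τ` and all integers `q ≥ 1`, `a`. -/
def FiniteType (α : ℝ) : Prop :=
  ∃ (τ : ℕ) (κ : ℝ), 0 < κ ∧ ∀ q : ℕ, 1 ≤ q → ∀ a : ℤ, κ / (q : ℝ) ^ τ ≤ |q * α - a|

/-- The shifts `a i` are distinct and their set is admissible: for every prime `p` some class modulo `p` contains
none of the `a i`. -/
def Admissible {m : ℕ} (a : Fin m → ℕ) : Prop :=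
  Function.Injective a ∧ ∀ p : ℕ, p.Prime → ∃ c : ℕ, ∀ i, ¬ a i ≡ c [MOD p]

/-- The number of the classes of `n` modulo `p` for which `p` divides some `n + a i`. -/
def omega {m : ℕ} (a : Fin m → ℕ) (p : ℕ) : ℕ := ((range p).filter (fun n : ℕ => ∃ i, p ∣ n + a i)).card

/-- The partial products of the singular series of the vector `a`. -/
noncomputable def euler {m : ℕ} (a : Fin m → ℕ) (z : ℕ) : ℝ :=
  ∏ p ∈ (Icc 1 z).filter Nat.Prime, (1 - (omega a p : ℝ) / p) / (1 - 1 / (p : ℝ)) ^ m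

/-- The number of the `n ≡ c (mod q)`, `y₁ < n ≤ y₂`, with all `n + a i` prime. -/
def tuples {m : ℕ} (a : Fin m → ℕ) (c q y₁ y₂ : ℕ) : ℕ :=
  ((Ioc y₁ y₂).filter (fun n : ℕ => (∀ i, (n + a i).Prime) ∧ n ≡ c [MOD q])).card

open Classical in
/-- The number of those among them with `P i (n + a i) ∈ [u i, u i + b i)` modulo 1 for all `i`. -/
noncomputable def arcTuples {m : ℕ} (P : Fin m → ℝ[X]) (a : Fin m → ℕ) (c q y₁ y₂ : ℕ) (u b : Fin m → ℝ) : ℕ :=
  ((Ioc y₁ y₂).filter (fun n : ℕ => ((∀ i, (n + a i).Prime) ∧ n ≡ c [MOD q]) ∧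
    ∀ i, Int.fract ((P i).eval (((n + a i : ℕ)) : ℝ) - u i) < b i)).card

/-- Let `P i`, `i = 1, ..., m`, be real polynomials of degree at least two whose leading coefficients are of finite
type. There is `η > 0` with (1), (2) below. In (1), the set `E` of exceptional vectors does not depend on the windows,
the targets and the arcs; in (2) it does not depend on the modulus, the class, the window and the arcs. -/
theorem result (m : ℕ) (hm : 1 ≤ m) (P : Fin m → ℝ[X]) (hP : ∀ i, 2 ≤ (P i).natDegree)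
    (hα : ∀ i, FiniteType (P i).leadingCoeff) :
    ∃ η : ℝ, 0 < η ∧
      -- (1) prime tuples with all the `P i (n + a i)` in thin sets, for almost all admissible vectors
      (∀ (A W : ℕ) (ε : ℝ), 0 < ε → ∃ N₀ : ℕ, ∀ N : ℕ, N₀ ≤ N →
        ∃ E : Finset (Fin m → ℕ), (E.card : ℝ) ≤ (N : ℝ) ^ m / Real.log N ^ A ∧
        ∀ a : Fin m → ℕ, (∀ i, a i ≤ N) → Admissible a → a ∉ E → ∃ S : ℝ, 0 < S ∧ Tendsto (euler a) atTop (𝓝 S) ∧
        ∀ y₁ y₂ : ℕ, y₁ < y₂ → y₂ ≤ N → (N : ℝ) / Real.log N ^ W ≤ (y₂ : ℝ) - y₁ →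
          (∀ u : Fin m → ℝ, ∃ n : ℕ, y₁ < n ∧ n ≤ y₂ ∧ ∀ i, (n + a i).Prime ∧
            ∃ k : ℤ, |(P i).eval (((n + a i : ℕ)) : ℝ) - u i - k| ≤ (N : ℝ) ^ (-η)) ∧
          ∀ u b : Fin m → ℝ, (∀ i, (N : ℝ) ^ (-η) ≤ b i) → (∀ i, b i ≤ 1) →
            |(arcTuples P a 0 1 y₁ y₂ u b : ℝ) - (∏ i, b i) * (S * ((y₂ : ℝ) - y₁) / Real.log N ^ m)| ≤
              ε * ((∏ i, b i) * (S * ((y₂ : ℝ) - y₁) / Real.log N ^ m))) ∧
      -- (2) equidistribution with a power saving, for all but at most `N ^ (m - η)` vectors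
      (∃ N₀ : ℕ, ∀ N : ℕ, N₀ ≤ N → ∃ E : Finset (Fin m → ℕ), (E.card : ℝ) ≤ (N : ℝ) ^ ((m : ℝ) - η) ∧
        ∀ a : Fin m → ℕ, (∀ i, a i ≤ N) → a ∉ E → ∀ q : ℕ, 1 ≤ q → (q : ℝ) ≤ (N : ℝ) ^ η →
        ∀ c y₁ y₂ : ℕ, y₁ ≤ y₂ → y₂ ≤ N → ∀ u b : Fin m → ℝ, (∀ i, 0 ≤ b i) → (∀ i, b i ≤ 1) →
          |(arcTuples P a c q y₁ y₂ u b : ℝ) - (∏ i, b i) * tuples a c q y₁ y₂| ≤ (N : ℝ) ^ (1 - η)) := by
  classical
  have hmr : (1 : ℝ) ≤ m := by exact_mod_cast hm
  -- a common exponent for the exponential sums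
  have hps : ∀ i : Fin m, ∃ η : ℝ, 0 < η ∧ η ≤ 1 / 16 ∧ ∃ N₀ : ℕ, ∀ N : ℕ, N₀ ≤ N → ∀ k : ℤ, k ≠ 0 →
      |(k : ℝ)| ≤ (N : ℝ) ^ η → ∀ β : ℝ, ∀ y : ℕ, y ≤ N →
      ‖∑ p ∈ (Ioc 0 y).filter Nat.Prime, Pool.Agent.Helper602.MK.ee (k * (P i).eval (p : ℝ) + β * p)‖ ≤ (N : ℝ) ^ (1 - η) := by
    intro i
    obtain ⟨τ, κ, h1⟩ := hα i
    exact Pool.Agent.H806.PD.prime_sum (P i).natDegree (hP i) τ κ _ h1 (P i) le_rfl rfl
  choose ηs hη0 hη1 Ns hNs using hps
  obtain ⟨i₀, _, hi₀⟩ := exists_min_image (univ : Finset (Fin m)) ηs ⟨⟨0, hm⟩, mem_univ _⟩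
  have hcom : ∀ N : ℕ, ∑ i, Ns i + 1 ≤ N → ∀ (i : Fin m) (k : ℤ), k ≠ 0 → |(k : ℝ)| ≤ (N : ℝ) ^ ηs i₀ → ∀ β : ℝ, ∀ y : ℕ, y ≤ N →
      ‖∑ p ∈ (Ioc 0 y).filter Nat.Prime, Pool.Agent.Helper602.MK.ee (k * (P i).eval (p : ℝ) + β * p)‖ ≤ (N : ℝ) ^ (1 - ηs i₀) := by
    intro N hN i k hk hkN β y hy
    have hN1 : (1 : ℝ) ≤ N := by exact_mod_cast (by omega : 1 ≤ N)
    have h1 : Ns i ≤ ∑ i, Ns i := single_le_sum (fun _ _ => Nat.zero_le _) (mem_univ i)
    have h2 := hi₀ i (mem_univ i)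
    refine (hNs i N (by omega) k hk (hkN.trans (Real.rpow_le_rpow_of_exponent_le hN1 h2)) β y hy).trans ?_
    exact Real.rpow_le_rpow_of_exponent_le hN1 (by linarith)
  obtain ⟨η₀, h00, h01, N₀, hmain⟩ := Pool.Agent.H806.PD.main_tuple m hm P (ηs i₀) (hη0 i₀) ((hη1 i₀).trans (by norm_num))
    (∑ i, Ns i + 1) hcom
  obtain ⟨N₁, hwin⟩ := Pool.Agent.H806.PD.tuple_window m P η₀ h00 N₀ hmain
  obtain ⟨η, hη⟩ : ∃ η, η = η₀ / 2 / (2 * m) := ⟨_, rfl⟩
  have hηpos : 0 < η := by rw [hη]; positivity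
  have hηle : η ≤ η₀ / 2 := by
    rw [hη]; exact div_le_self (by positivity) (by linarith)
  refine ⟨η, hηpos, ?_, ?_⟩
  · intro A W ε hε
    obtain ⟨n1, h3⟩ := Pool.Agent.H806.PD.tuple_almost m hm P (η₀ / 2) (by positivity) N₁ hwin
      (min ε (1 / 2)) (lt_min hε (by norm_num)) A W
    refine ⟨n1 + 4, fun N hN => ?_⟩
    have hN4 : (4 : ℝ) ≤ N := by exact_mod_cast (by omega : 4 ≤ N)
    have hN0 : (0 : ℝ) < N := by linarith
    have hLN : 0 < Real.log N := Real.log_pos (by linarith)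
    obtain ⟨E, hE1, hE2⟩ := h3 N (by omega)
    refine ⟨E, hE1, fun a haN hadm haE => ?_⟩
    obtain ⟨S, hS0, hSt, hS⟩ := hE2 a haN hadm haE
    rw [← hη] at hS
    refine ⟨S, hS0, hSt, fun y₁ y₂ hy hyN hlen => ?_⟩
    have hD : 0 < (y₂ : ℝ) - y₁ := lt_of_lt_of_le (by positivity) hlen
    have hM : 0 < S * ((y₂ : ℝ) - y₁) / Real.log N ^ m := by positivity
    have hb1 : (N : ℝ) ^ (-η) ≤ 1 := Real.rpow_le_one_of_one_le_of_nonpos (by linarith) (by linarith)
    constructor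
    · intro u
      have key := hS y₁ y₂ hy hyN hlen u (fun _ => (N : ℝ) ^ (-η)) (fun _ => le_rfl) (fun _ => hb1)
      apply Pool.Agent.H806.PD.exists_of_box P a y₁ y₂ ((N : ℝ) ^ (-η)) _ (by positivity) hM u
      refine key.trans (mul_le_mul_of_nonneg_right (min_le_right _ _) ?_)
      exact mul_nonneg (prod_nonneg fun _ _ => by positivity) hM.le
    · intro u b hb hb'
      have key := hS y₁ y₂ hy hyN hlen u b hb hb'
      have hbn : 0 ≤ ∏ i, b i := prod_nonneg fun i _ => le_trans (by positivity) (hb i)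
      exact key.trans (mul_le_mul_of_nonneg_right (min_le_left _ _) (mul_nonneg hbn hM.le))
  · refine ⟨N₁ + 1, fun N hN => ?_⟩
    have hN1 : (1 : ℝ) ≤ N := by exact_mod_cast (by omega : 1 ≤ N)
    have hle : (N : ℝ) ^ (1 - η₀ / 2) ≤ (N : ℝ) ^ (1 - η) := Real.rpow_le_rpow_of_exponent_le hN1 (by linarith)
    have hle2 : (N : ℝ) ^ η ≤ (N : ℝ) ^ (η₀ / 2) := Real.rpow_le_rpow_of_exponent_le hN1 (by linarith)
    have hle3 : (N : ℝ) ^ ((m : ℝ) - η₀ / 2) ≤ (N : ℝ) ^ ((m : ℝ) - η) := Real.rpow_le_rpow_of_exponent_le hN1 (by linarith)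
    obtain ⟨E, hE1, hE2⟩ := hwin N (by omega)
    exact ⟨E, hE1.trans hle3, fun a haN haE q hq1 hqN c y₁ y₂ hy hyN u b hb hb' =>
      (hE2 a haN haE q hq1 (hqN.trans hle2) c y₁ y₂ hy hyN u b hb hb').trans hle⟩

end Pool.Agent.Results.MP_f686a1_nt.PolynomialBohrTuples
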